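import Pool.Agent.H979.FR.Stm

set_option autoImplicit false
set_option linter.unusedVariables false

open MeasureTheory ProbabilityTheory Finset
open scoped ENNReal NNReal

/-!
# Critical curves of the frog model: statements (each `S_X` is a task), with proofs in the docstrings

Theorem of the project: on every transitive graph of superlinear growth the maps `t ↦ λ_c(t)` and
`λ ↦ t_c(λ)` are finite, positive, continuous and strictly decreasing on `(0, ∞)`.
Definitions of the model: `Pool/Agent/H979/FR/Defs.lean`. The statements `S_POI`, `S_MEAS`, ... of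
`Pool/Agent/H979/FR/Stm.lean` are proved and may be used.
-/

namespace Pool.Agent.H979.FC

open Pool.Agent.H979.FR

section Defs

variable {V : Type}

/-- The critical density `λ_c(t) = sup {λ ≥ 0 : P_{λ,t}(o → ∞) = 0}`, in `[0, ∞]`. -/
noncomputable def lc [MeasurableSpace V] [DiscreteMeasurableSpace V] (G : SimpleGraph V)
    [G.LocallyFinite] (o : V) (t : ℝ≥0) : ℝ≥0∞ :=
  ⨆ (lam : ℝ≥0) (_ : law G lam (Survives (t : ℝ) o) = 0), (lam : ℝ≥0∞)

/-- the particle `ξ` started at `x` makes exactly `l.length` jumps during its life `t`, to the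
successive vertices of the list `l` -/
def run (t : ℝ) (x : V) (ξ : FR.Part V) (l : List V) : Prop :=
  (∀ n : ℕ, ∑ j ∈ range n, ξ.1 j ≤ t ↔ n ≤ l.length) ∧
  ∀ (n : ℕ) (hn : n < l.length), path x ξ.2 (n + 1) = l[n]

open Classical in
/-- the field of the present nonempty paths: `field t ω (x, l) = true` iff `l ≠ []` and some particle
of `x` follows the path `l` -/
noncomputable def field (t : ℝ) (ω : Conf V) (p : V × List V) : Bool :=
  decide (p.2 ≠ [] ∧ ∃ i < (ω p.1).1, run t p.1 ((ω p.1).2 i) p.2)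

/-- reachability by present paths -/
def RF (A : V × List V → Bool) (o y : V) : Prop :=
  Relation.ReflTransGen (fun x y => ∃ l, A (x, l) = true ∧ y ∈ l) o y

/-- infinitely many vertices are reachable -/
def Surv (o : V) : Set (V × List V → Bool) := {A | {y | RF A o y}.Infinite}

/-- at least `n` vertices are reachable -/
def SurvN (o : V) (n : ℕ) : Set (V × List V → Bool) := {A | (n : ℕ∞) ≤ {y | RF A o y}.encard}

/-- the Poisson weights -/
noncomputable def q (k : ℕ) (t : ℝ) : ℝ := Real.exp (-t) * t ^ k / k.factorial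

open Classical in
/-- the intensity of the path `l` from `x` in a `d`-regular graph -/
noncomputable def fw (G : SimpleGraph V) (d : ℕ) (lam t : ℝ) (p : V × List V) : ℝ≥0 :=
  if p.2 ≠ [] ∧ List.IsChain G.Adj (p.1 :: p.2) then
    (lam * q p.2.length t / (d : ℝ) ^ p.2.length).toNNReal else 0

open Classical in
/-- the single steps of a path -/
noncomputable def steps : V → List V → Finset (V × List V)
  | _, [] => ∅
  | x, y :: l => insert (x, [y]) (steps y l)

end Defs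

/-! ### Product fields -/

/-- the law of the indicator that a Poisson variable of mean `a` is positive -/
noncomputable def pl (a : ℝ≥0) : Measure Bool := (poissonMeasure a).map (fun n => decide (0 < n))

instance (a : ℝ≥0) : IsProbabilityMeasure (pl a) :=
  Measure.isProbabilityMeasure_map (measurable_of_countable _).aemeasurable

/-- the field of independent indicators, coordinate `i` is false with probability `exp (-μ i)` -/
noncomputable def PF {I : Type} (μ : I → ℝ≥0) : Measure (I → Bool) :=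
  Measure.infinitePi fun i => pl (μ i)

/-- increasing sets of configurations -/
def Inc {I : Type} (S : Set (I → Bool)) : Prop :=
  ∀ A A' : I → Bool, (∀ i, A i = true → A' i = true) → A ∈ S → A' ∈ S

/-- **VOID** (void probabilities determine the law). The events `{A | ∀ i ∈ F, A i = false}` are a
pi-system which generates the product sigma-algebra of `I → Bool`. -/
def S_VOID : Prop := ∀ (I : Type) [Countable I] (P Q : Measure (I → Bool)) [IsProbabilityMeasure P]
  [IsProbabilityMeasure Q], (∀ F : Finset I, P {A | ∀ i ∈ F, A i = false} =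
    Q {A | ∀ i ∈ F, A i = false}) → P = Q

/-- **PFV** `pl a {false} = exp (-a)` and the product formula. -/
def S_PFV : Prop := ∀ (I : Type) (μ : I → ℝ≥0) (F : Finset I),
  PF μ {A | ∀ i ∈ F, A i = false} = ENNReal.ofReal (Real.exp (-∑ i ∈ F, (μ i : ℝ)))

/-- **UNI** (given VOID, PFV): void probabilities of the union of two independent fields. -/
def S_UNI : Prop := ∀ (I : Type) [Countable I] (μ ν : I → ℝ≥0),
  ((PF μ).prod (PF ν)).map (fun p i => p.1 i || p.2 i) = PF (fun i => μ i + ν i)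

/-- **COND**. The event `{A | (A ∪ T) ∈ Y}` does not depend on the coordinates in `T`, so it is
independent of `{A | ∀ i ∈ T, A i = true}`, which has probability at least `(1 - e^(-a))^|T|`, and on
the intersection `A ∪ T = A`. -/
def S_COND : Prop := ∀ (I : Type) [Countable I] [DecidableEq I] (μ : I → ℝ≥0)
  (Y : Set (I → Bool)), MeasurableSet Y → ∀ (T : Finset I) (a : ℝ), 0 < a →
  (∀ i ∈ T, a ≤ μ i) →
  ENNReal.ofReal ((1 - Real.exp (-a)) ^ T.card) * PF μ {A | (fun i => A i || decide (i ∈ T)) ∈ Y} ≤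
    PF μ Y

/-- **BLOCK** (given UNI, COND). Replacing a rare block by rare additional steps.
Let `k = T.card`, `C = (1 - e^(-a))⁻¹`.
(1) Suppose first `x = k ν C^k ≤ 1/2`, so `1 - e^(-δ) ≥ x` for `δ = 2x`. By UNI
`PF (μ + ν 1_γ) S ≤ PF μ S + (1 - e^(-ν)) PF μ {A ∉ S, A ∪ {γ} ∈ S}
≤ PF μ S + ν PF μ {A ∉ S, A ∪ T ∈ S}`. Enumerate `T = {e_1, ..., e_k}`; if `A ∉ S`, `A ∪ T ∈ S` there is
`j` with `A ∪ {e_1..e_{j-1}} ∉ S`, `A ∪ {e_1..e_j} ∈ S`, and by COND (with `Y = {A ∉ S, A ∪ {e_j} ∈ S}`)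
the probability of this is at most `C^k PF μ {A ∉ S, A ∪ {e_j} ∈ S}`; and
`PF (μ + δ 1_T) S - PF μ S ≥ (1 - e^(-δ)) PF μ {A ∉ S, A ∪ {e_j} ∈ S}` for each `j`. So
`PF (μ + δ 1_T) S - PF μ S ≥ (1/k) (1 - e^(-δ)) C^(-k) PF μ {A ∉ S, A ∪ T ∈ S}
≥ ν PF μ {A ∉ S, A ∪ T ∈ S}`. (If `k = 0`, `A ∪ {γ} ∈ S` implies `A ∈ S`.)
(2) In general write `ν = r (ν / r)` with `r` large and apply (1) `r` times, with the base intensities
`μ + (ν - j ν / r) 1_γ + (j - 1) (δ / r) 1_T`. -/
def S_BLOCK : Prop := ∀ (I : Type) [Countable I] [DecidableEq I] (S : Set (I → Bool)),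
  MeasurableSet S → Inc S → ∀ (γ : I) (T : Finset I),
  (∀ A : I → Bool, Function.update A γ true ∈ S → (fun i => A i || decide (i ∈ T)) ∈ S) →
  ∀ (μ : I → ℝ≥0) (a : ℝ), 0 < a → (∀ i ∈ T, a ≤ μ i) → ∀ (ν δ : ℝ≥0),
  2 * (T.card : ℝ) * ((1 - Real.exp (-a))⁻¹) ^ T.card * ν ≤ δ →
  PF (fun i => μ i + if i = γ then ν else 0) S ≤ PF (fun i => μ i + if i ∈ T then δ else 0) S

/-- **BLOCKS** (given BLOCK; induction on `B`: the base intensities only increase). -/
def S_BLOCKS : Prop := ∀ (I : Type) [Countable I] [DecidableEq I] (S : Set (I → Bool)),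
  MeasurableSet S → Inc S → ∀ (T : I → Finset I) (B : Finset I),
  (∀ γ ∈ B, ∀ A : I → Bool, Function.update A γ true ∈ S →
    (fun i => A i || decide (i ∈ T γ)) ∈ S) →
  ∀ (μ : I → ℝ≥0) (a : ℝ), 0 < a → (∀ γ ∈ B, ∀ i ∈ T γ, a ≤ μ i) → ∀ (ν δ : I → ℝ≥0),
  (∀ γ ∈ B, 2 * ((T γ).card : ℝ) * ((1 - Real.exp (-a))⁻¹) ^ (T γ).card * ν γ ≤ δ γ) →
  PF (fun i => μ i + if i ∈ B then ν i else 0) S ≤
    PF (fun i => μ i + ∑ γ ∈ B, if i ∈ T γ then δ γ else 0) S

/-- **SRV** (properties of the events). `RF A o y` holds iff there is a finite chain of present paths;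
it is measurable (countable union over chains), increasing in `A`, and `RF A o y` implies
`RF (A ∩ F) o y` for some finite set `F`. If the path `(x, l)` is added then its single steps do at
least as well. `Surv o = ⋂ n, SurvN o n`. -/
def S_SRV : Prop := ∀ (V : Type) [Countable V] [DecidableEq V] (o : V),
  MeasurableSet (Surv o) ∧ Inc (Surv o) ∧ (∀ n, MeasurableSet (SurvN o n) ∧ Inc (SurvN o n)) ∧
  (Surv o = ⋂ n, SurvN o n) ∧ (∀ m n, m ≤ n → SurvN o n ⊆ SurvN o m) ∧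
  (∀ n, ∀ A ∈ SurvN o n, ∃ F : Finset (V × List V), (fun i => A i && decide (i ∈ F)) ∈ SurvN o n) ∧
  ∀ (n : ℕ) (x : V) (l : List V) (A : V × List V → Bool), Function.update A (x, l) true ∈ SurvN o n →
    (fun i => A i || decide (i ∈ steps x l)) ∈ SurvN o n

/-- **CMP** (given BLOCKS, SRV, UNI). For each `n` and finite `B`, BLOCKS with `S = SurvN o n`,
`T (x, l) = steps x l`, and monotonicity of `PF` (UNI) give
`PF (μ0 + ν 1_B) (SurvN o n) ≤ PF μ' (SurvN o n)` (only the `γ ∈ B` with `ν γ ≠ 0` matter, drop the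
other ones). With `A = A0 ∪ N`, `N ~ PF ν` (UNI), `A ∈ SurvN o n` iff `A0 ∪ (N ∩ B) ∈ SurvN o n` for some
finite `B` (SRV), so `PF (μ0 + ν) (SurvN o n)` is the supremum of `PF (μ0 + ν 1_B) (SurvN o n)` over an
increasing sequence of finite sets `B` that exhausts `V × List V`. Finally
`PF μ (Surv o) = inf_n PF μ (SurvN o n)`. -/
def S_CMP : Prop := ∀ (V : Type) [Countable V] [DecidableEq V] (o : V)
  (μ0 ν μ' : V × List V → ℝ≥0) (a : ℝ), 0 < a →
  (∀ x l, ν (x, l) ≠ 0 → ∀ i ∈ steps x l, a ≤ μ0 i) →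
  (∀ i, (μ0 i : ℝ≥0∞) + ∑' p : V × List V, (if i ∈ steps p.1 p.2 then
    ENNReal.ofReal (2 * ((steps p.1 p.2).card : ℝ) *
      ((1 - Real.exp (-a))⁻¹) ^ (steps p.1 p.2).card * ν p) else 0) ≤ μ' i) →
  PF (fun i => μ0 i + ν i) (Surv o) ≤ PF μ' (Surv o)

/-! ### The representation by fields -/

/-- **KLAW** (the number of jumps is Poisson). `P(S_n ≤ t) = ∑_{j ≥ n} q j t` for the sum `S_n` of the
first `n` holding times, by induction: `P(S_{n+1} ≤ t) = ∫_0^t e^(-s) P(S_n ≤ t - s) ds` and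
`∫_0^t e^(-s) q j (t-s) ds = q (j+1) t`. The holding times are a.s. nonnegative, so a.s. the event is
`{S_k ≤ t < S_{k+1}}`. -/
def S_KLAW : Prop := ∀ (t : ℝ), 0 ≤ t → ∀ k : ℕ,
  clockLaw {E | ∀ n : ℕ, ∑ j ∈ range n, E j ≤ t ↔ n ≤ k} = ENNReal.ofReal (q k t)

/-- **CLKA** (given KLAW). The events of KLAW are disjoint and `∑ q k t = 1`. -/
def S_CLKA : Prop := ∀ (t : ℝ), 0 ≤ t →
  ∀ᵐ E ∂clockLaw, ∃ k : ℕ, ∀ n : ℕ, ∑ j ∈ range n, E j ≤ t ↔ n ≤ k

/-- **RUNP** (given KLAW). Independence of the clocks and the choices; the path follows `l` iff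
`c (n, l[n-1]) = l[n]` for all `n < l.length` (`l[-1] = x`). -/
def S_RUNP : Prop := ∀ (V : Type) [MeasurableSpace V] [DiscreteMeasurableSpace V] [Countable V]
  (G : SimpleGraph V) [G.LocallyFinite] (d : ℕ), 0 < d → (∀ v, G.degree v = d) →
  ∀ (t : ℝ), 0 ≤ t → ∀ (x : V) (l : List V), MeasurableSet {ξ : FR.Part V | run t x ξ l} ∧
  partLaw G {ξ | run t x ξ l} = (open Classical in if List.IsChain G.Adj (x :: l) then
    ENNReal.ofReal (q l.length t / (d : ℝ) ^ l.length) else 0)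

/-- **RFAE** (given CLKA). A.s. all particles make finitely many jumps in the sense of CLKA, and then
`y ∈ visits t x ξ` iff `y = x` or `y ∈ l` for the (unique) list `l` with `run t x ξ l`. -/
def S_RFAE : Prop := ∀ (V : Type) [MeasurableSpace V] [DiscreteMeasurableSpace V] [Countable V]
  (G : SimpleGraph V) [G.LocallyFinite] (lam : ℝ≥0) (t : ℝ), 0 ≤ t →
  ∀ᵐ ω ∂(law G lam), ∀ o y, Visited t ω o y ↔ RF (field t ω) o y

/-- **REP** (given RFAE, RUNP, VOID, PFV, FR.S_POI). The image of `law` under `field t` has the void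
probabilities of `PF (fw G d lam t)`: by `S_POI` with
`H x = {ξ | ∃ l, (x, l) ∈ F, l ≠ [], run t x ξ l}` (disjoint union over `l`). -/
def S_REP : Prop := ∀ (V : Type) [MeasurableSpace V] [DiscreteMeasurableSpace V] [Countable V]
  (G : SimpleGraph V) [G.LocallyFinite] (d : ℕ), 0 < d → (∀ v, G.degree v = d) →
  ∀ (lam : ℝ≥0) (t : ℝ), 0 ≤ t → ∀ o : V,
  law G lam (Survives t o) = PF (fw G d lam t) (Surv o)

/-! ### Second comparison: higher density, shorter life -/

/-- the condition of the second comparison -/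
def HH (d : ℕ) (lam t lam' t' : ℝ) : Prop :=
  ENNReal.ofReal (lam * q 1 t) + 2 * ∑' k : ℕ, (if 2 ≤ k then ENNReal.ofReal
    ((k : ℝ) ^ 2 * ((1 - Real.exp (-(lam * q 1 t / d)))⁻¹) ^ k * (lam * q k t - lam' * q k t'))
    else 0) ≤ ENNReal.ofReal (lam' * q 1 t')

/-- **PCNT** (path counting). There are at most `k d^(k-1)` chains `x :: l` with `l.length = k` which
contain a given step (`k` positions of the step, `d` choices for each of the other steps). -/
def S_PCNT : Prop := ∀ (V : Type) [Countable V] [DecidableEq V] (G : SimpleGraph V)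
  [G.LocallyFinite] (d : ℕ), 0 < d → (∀ v, G.degree v = d) → ∀ (k : ℕ), 1 ≤ k →
  ∀ i : V × List V,
  {p : V × List V | List.IsChain G.Adj (p.1 :: p.2) ∧ p.2.length = k ∧ i ∈ steps p.1 p.2}.encard ≤
    ((k * d ^ (k - 1) : ℕ) : ℕ∞)

/-- **TWO** (given CMP, REP, PCNT, UNI). Let `μ = fw G d lam t`, `μ' = fw G d lam' t'`,
`a = lam * q 1 t / d`; `μ0 i = μ i` if `i.2.length ≤ 1`, `μ0 i = min (μ i) (μ' i)` otherwise;
`ν = μ - μ0`. So `ν (x, l) = max 0 (lam q_k(t) - lam' q_k(t')) / d^k` for a chain with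
`k = l.length ≥ 2`, and `0` otherwise; the steps of a chain are `(y, [z])` with `y ~ z`, so
`μ0 = a` there. `(steps x l).card ≤ l.length`. Condition of CMP: for `i = (y, [z])` with `y ~ z` the sum is
at most `∑_k k d^(k-1) * 2 k C^k max 0 (..) / d^k` (PCNT), so the condition is `HH` divided by `d`; for
other `i` the sum is `0` and `μ0 i ≤ μ' i`. -/
def S_TWO : Prop := ∀ (V : Type) [MeasurableSpace V] [DiscreteMeasurableSpace V] [Countable V]
  (G : SimpleGraph V) [G.LocallyFinite] (d : ℕ), 0 < d → (∀ v, G.degree v = d) →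
  ∀ (lam lam' t t' : ℝ≥0), 0 < lam → 0 < t → HH d lam t lam' t' → ∀ o : V,
  law G lam (Survives (t : ℝ) o) ≤ law G lam' (Survives (t' : ℝ) o)

/-- **HHL** (local form of the condition). For `k ≥ 2`, `t' = t - ε`, `lam' ≥ lam`:
`lam q_k(t) - lam' q_k(t') ≤ lam e^(-t) (t^k - t'^k) / k! ≤ lam ε t^(k-1) / (k-1)!`. On `[a, b]^2`
`lam q_1(t) / d` is bounded below by a positive constant, so
`2 ∑_k k^2 C^k lam ε t^(k-1)/(k-1)! ≤ B ε`; and
`lam' q_1(t') - lam q_1(t) ≥ e^(-t) ((lam + K ε)(t - ε) - lam t) ≥ e^(-b) ε (K a / 2 - b)` if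
`ε ≤ a/2`. Choose `K` large. -/
def S_HHL : Prop := ∀ (d : ℕ), 0 < d → ∀ (a b : ℝ), 0 < a → a ≤ b → ∃ K ε0 : ℝ, 0 < K ∧ 0 < ε0 ∧
  ε0 < a ∧ ∀ lam t ε : ℝ, a ≤ lam → lam ≤ b → a ≤ t → t ≤ b → 0 ≤ ε → ε ≤ ε0 →
  HH d lam t (lam + K * ε) (t - ε)

/-- **HHG** (global form). The left hand side is bounded by a finite constant that does not depend on
`lam'`. -/
def S_HHG : Prop := ∀ (d : ℕ), 0 < d → ∀ (lam t t' : ℝ), 0 < lam → 0 < t → 0 < t' →
  ∃ lam' : ℝ, 0 < lam' ∧ HH d lam t lam' t'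

/-- **HHM**: monotonicity in the density. -/
def S_HHM : Prop := ∀ (d : ℕ), 0 < d → ∀ (lam lam' t : ℝ), 0 < lam → 0 < t → lam ≤ lam' →
  HH d lam t lam' t

/-! ### First comparison: lower density, longer life -/

/-- the transformation of the first holding time -/
noncomputable def tm (ρ s : ℝ) : ℝ := -Real.log (1 - ρ * (1 - Real.exp (-s)))

/-- the transformation of the clock -/
noncomputable def TM (ρ : ℝ) (E : ℕ → ℝ) : ℕ → ℝ := Function.update E 0 (tm ρ (E 0))

/-- **TMM**. For `ρ = (1 - e^(-t)) / (1 - e^(-t'))` the image under `tm ρ` of `ρ` times the restriction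
of the exponential law to `[0, t']` is the restriction of the exponential law to `[0, t]`
(`tm ρ s ≤ b` iff `1 - e^(-s) ≤ (1 - e^(-b)) / ρ`, for `0 ≤ b ≤ t`). The other holding times are not
changed and independent. -/
def S_TMM : Prop := ∀ (t t' : ℝ), 0 < t → t ≤ t' → ∀ H : Set (ℕ → ℝ), MeasurableSet H →
  (∀ E ∈ H, E 0 ≤ t) →
  ENNReal.ofReal ((1 - Real.exp (-t)) / (1 - Real.exp (-t'))) *
    clockLaw {E | E 0 ≤ t' ∧ TM ((1 - Real.exp (-t)) / (1 - Real.exp (-t'))) E ∈ H} = clockLaw H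

/-- **TMD**. `s - tm ρ s` is nondecreasing on `[0, ∞)` (`ρ < 1`) and `tm ρ t' = t`; for `t = t'`,
`tm 1 s = s`. -/
def S_TMD : Prop := ∀ (t t' s : ℝ), 0 < t → t ≤ t' → 0 ≤ s → s ≤ t' →
  s - tm ((1 - Real.exp (-t)) / (1 - Real.exp (-t'))) s ≤ t' - t

open Classical in
/-- the field of the transformed particles -/
noncomputable def field' {V : Type} (t t' : ℝ) (ω : Conf V) (p : V × List V) : Bool :=
  decide (p.2 ≠ [] ∧ ∃ i < (ω p.1).1, ((ω p.1).2 i).1 0 ≤ t' ∧
    run t p.1 (TM ((1 - Real.exp (-t)) / (1 - Real.exp (-t'))) ((ω p.1).2 i).1,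
      ((ω p.1).2 i).2) p.2)

/-- **ONE** (given TMM, TMD, RFAE, RUNP, VOID, SRV, FR.S_POI). The fields `field t` under `law G lam` and
`field' t t'` under `law G lam'` have the same law: by VOID and `S_POI` it suffices that
`lam * partLaw {ξ | ∃ l ∈ F, run t x ξ l}
= lam' * partLaw {ξ | ξ.1 0 ≤ t' ∧ ∃ l ∈ F, run t x (TM ξ.1, ξ.2) l}` for finite sets `F` of nonempty lists:
for fixed choices `ξ.2 = c` this is TMM with `H = {E | ∃ l ∈ F, run t x (E, c) l}` (nonempty lists: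
at least one jump, so `E 0 ≤ t`), and one integrates over `c`. If `RF (field' t t' ω) o y`, then
`Visited t' ω o y`: if `run t x (TM E, c) l`, `0 ≤ E 0 ≤ t'` and `y = l[n]`, then
`y = path x c (n+1)`, and the sum of the first `n + 1` terms of `E` is the one of `TM E` plus
`E 0 - tm ρ (E 0) ≤ t' - t`, so at most `t'`. Hence `law_lam (Survives t) = P (field t ∈ Surv)
= P' (field' ∈ Surv) ≤ law_lam' (Survives t')`. -/
def S_ONE : Prop := ∀ (V : Type) [MeasurableSpace V] [DiscreteMeasurableSpace V] [Countable V]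
  (G : SimpleGraph V) [G.LocallyFinite] (d : ℕ), 0 < d → (∀ v, G.degree v = d) →
  ∀ (lam lam' t t' : ℝ≥0), 0 < t → t ≤ t' →
  (lam' : ℝ) * (1 - Real.exp (-(t' : ℝ))) = lam * (1 - Real.exp (-(t : ℝ))) → ∀ o : V,
  law G lam (Survives (t : ℝ) o) ≤ law G lam' (Survives (t' : ℝ) o)

/-! ### Subcritical regime and monotonicity in the lifetime -/

/-- **MT**: `visits` increases with the lifetime. -/
def S_MT : Prop := ∀ (V : Type) [MeasurableSpace V] [DiscreteMeasurableSpace V]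
  (G : SimpleGraph V) [G.LocallyFinite] (lam : ℝ≥0) (t t' : ℝ), t ≤ t' → ∀ o : V,
  law G lam (Survives t o) ≤ law G lam (Survives t' o)

/-- **SUB** (given KLAW, REP or CLKA). Let `h x y = partLaw {ξ | y ∈ visits t x ξ}` for `y ≠ x`;
`∑_{y ≠ x} h x y ≤ E (number of jumps) = ∑ k q_k(t) = t`. For distinct `x_0 = o, ..., x_n` the
probability that for each `i` some particle of `x_i` visits `x_(i+1)` is at most `∏ lam * h x_i x_(i+1)`
(independence over `x_i`; `1 - exp (-lam h) ≤ lam h`, `S_POI`). So the probability that there is such a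
chain of length `n` is at most `(lam t)^n → 0`. A.s. every vertex has finitely many particles with
finitely many jumps, and then, if infinitely many vertices are visited, there are vertices at every
directed distance from `o`, and a shortest directed path gives a chain of distinct vertices. -/
def S_SUB : Prop := ∀ (V : Type) [MeasurableSpace V] [DiscreteMeasurableSpace V] [Countable V]
  (G : SimpleGraph V) [G.LocallyFinite] (d : ℕ), 0 < d → (∀ v, G.degree v = d) →
  ∀ (lam t : ℝ≥0), lam * t < 1 → ∀ o : V, law G lam (Survives (t : ℝ) o) = 0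

/-- **REAL** (real analysis). Let `Tc lam = sup {t : θ lam t = 0}`, `Lc t = sup {lam : θ lam t = 0}`.
Positive by (5), finite by (3), (4) and monotonicity. For `lam > Lc t` one has `θ lam t ≠ 0`, for
`t > Tc lam` one has `θ lam t ≠ 0`.
`Lc` strictly decreasing: if `t1 < t2`, `ρ = (1 - e^(-t1)) / (1 - e^(-t2)) < 1`, then
`θ lam t1 ≠ 0` for all `lam > Lc t1`, so `θ (ρ lam) t2 ≠ 0` by (6), so `Lc t2 ≤ ρ Lc t1 < Lc t1`.
`Lc` continuous: by (7) at `(lam, t)`, `lam` slightly larger than `Lc t`, `Lc (t - ε) ≤ lam + K ε`, so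
`Lc t ≤ Lc (t - ε) ≤ Lc t + K ε`, with `K, ε0` uniform for `t` in a compact interval
(`1/t ≤ Lc t`, `Lc` monotone: all the pairs `(lam, t)` used lie in one square `[a, b]^2`).
`Tc` strictly decreasing: `θ lam t ≠ 0` for `t = Tc lam + ε/2`, so `θ (lam + K ε) (t - ε) ≠ 0` and
`Tc (lam + K ε) ≤ Tc lam - ε/2`, for small `ε`; `Tc` is monotone.
`Tc` continuous: by (6), if `t > Tc lam0` and `lam < lam0` is so close to `lam0` that
`lam0 (1 - e^(-t)) / lam = 1 - e^(-t')` for some `t'` close to `t`, then `θ lam t' ≠ 0`, so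
`Tc lam ≤ t'`; this is uniform for `lam0` in a compact interval (use `lam0` and `lam` both as the
fixed point for left and right continuity). -/
def S_REAL : Prop := ∀ θ : ℝ≥0 → ℝ≥0 → ℝ≥0∞,
  (∀ lam t t', t ≤ t' → θ lam t ≤ θ lam t') →
  (∀ lam lam' t, 0 < lam → lam ≤ lam' → θ lam t ≤ θ lam' t) →
  (∀ lam, 0 < lam → ∃ t, θ lam t ≠ 0) →
  (∀ t, 0 < t → ∃ lam, 0 < lam ∧ θ lam t ≠ 0) →
  (∀ lam t, lam * t < 1 → θ lam t = 0) →
  (∀ lam lam' t t' : ℝ≥0, 0 < t → t ≤ t' →
    (lam' : ℝ) * (1 - Real.exp (-(t' : ℝ))) = lam * (1 - Real.exp (-(t : ℝ))) →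
    θ lam t ≤ θ lam' t') →
  (∀ a b : ℝ≥0, 0 < a → a ≤ b → ∃ K ε0 : ℝ≥0, 0 < K ∧ 0 < ε0 ∧ ε0 < a ∧ ∀ lam t ε : ℝ≥0,
    a ≤ lam → lam ≤ b → a ≤ t → t ≤ b → ε ≤ ε0 → θ lam t ≤ θ (lam + K * ε) (t - ε)) →
  (∀ lam, 0 < lam → 0 < (⨆ (t : ℝ≥0) (_ : θ lam t = 0), (t : ℝ≥0∞)) ∧
    (⨆ (t : ℝ≥0) (_ : θ lam t = 0), (t : ℝ≥0∞)) < ⊤) ∧
  (∀ t, 0 < t → 0 < (⨆ (lam : ℝ≥0) (_ : θ lam t = 0), (lam : ℝ≥0∞)) ∧
    (⨆ (lam : ℝ≥0) (_ : θ lam t = 0), (lam : ℝ≥0∞)) < ⊤) ∧
  ContinuousOn (fun lam : ℝ≥0 => ⨆ (t : ℝ≥0) (_ : θ lam t = 0), (t : ℝ≥0∞)) (Set.Ioi 0) ∧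
  StrictAntiOn (fun lam : ℝ≥0 => ⨆ (t : ℝ≥0) (_ : θ lam t = 0), (t : ℝ≥0∞)) (Set.Ioi 0) ∧
  ContinuousOn (fun t : ℝ≥0 => ⨆ (lam : ℝ≥0) (_ : θ lam t = 0), (lam : ℝ≥0∞)) (Set.Ioi 0) ∧
  StrictAntiOn (fun t : ℝ≥0 => ⨆ (lam : ℝ≥0) (_ : θ lam t = 0), (lam : ℝ≥0∞)) (Set.Ioi 0)

/-- **ISO2**: the isoperimetric inequality used, for all transitive graphs of superlinear growth (given
FR.S_ISO, FR.S_BALL). Amenable: `S_ISO` with `c0 = 1/8`. Not amenable: there is `ε > 0` with
`|outerBd A| ≥ ε |A| ≥ ε 2^r ≥ ε (11/10)^r`. -/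
def S_ISO2 : Prop := ∀ (V : Type) [Infinite V] (G : SimpleGraph V) [G.LocallyFinite], G.Connected →
  Transitive G → ∀ (o : V), ¬ LinearGrowth G o → ∃ c0 : ℝ, 0 < c0 ∧ ∀ (r : ℕ) (A : Finset V),
  2 ^ r ≤ A.card → c0 * ((11 : ℝ) / 10) ^ r ≤ ((outerBd G A).ncard : ℝ)

end Pool.Agent.H979.FC
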