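import Pool.Agent.H979.FR.Fin
import Pool.Agent.H979.FC.Stm

set_option autoImplicit false
set_option linter.unusedVariables false

open MeasureTheory ProbabilityTheory Finset
open scoped ENNReal NNReal

namespace Pool.Agent.H979.FC

open Pool.Agent.H979.FR

/-- For a suitable lifetime, and all larger ones, the model survives with positive probability. -/
theorem exists_time2 (hCNT : S_CNT) (hREG : S_REG) (hCELL : S_CELL)
    (hTOUR : S_TOUR) (hKAP : S_KAP) (hKDEC : S_KDEC) (hCLOSE : S_CLOSE)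
    (hIND : S_IND) (hREACH : S_REACH) (hINS : S_INS) (hOUT : S_OUT) (hENG : S_ENG) (hPAR : S_PAR)
    (V : Type) [Infinite V] [MeasurableSpace V] [DiscreteMeasurableSpace V]
    (G : SimpleGraph V) [G.LocallyFinite] (hG : G.Connected) (hT : Transitive G)
    (o : V) (c0 : ℝ) (hc00 : 0 < c0) (hISO : ∀ (r : ℕ) (A : Finset V), 2 ^ r ≤ A.card →
      c0 * ((11 : ℝ) / 10) ^ r ≤ ((outerBd G A).ncard : ℝ)) (lam : ℝ≥0) (hlam : 0 < lam) :
    ∃ t0 : ℝ≥0, ∀ t : ℝ≥0, t0 ≤ t → law G lam (Survives (t : ℝ) o) ≠ 0 := by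
  classical
  have : Countable V := hCNT V G hG
  obtain ⟨d, hd2, hd⟩ := hREG V G hG hT
  have hd0 : 0 < d := by omega
  have hdR : (0 : ℝ) < d := by exact_mod_cast hd0
  have hlamR : (0 : ℝ) < lam := by exact_mod_cast hlam
  set c : ℝ := (lam : ℝ) * c0 / (32 * (d : ℝ) ^ 2) with hc
  have hc0 : 0 < c := by positivity
  obtain ⟨M, r1, r2, ψ, hM, hψ0, hψm, hψs, hψ1, hψ2, hψ3⟩ := hPAR lam c hlamR hc0
  obtain ⟨π, L, hπL, hπf, hπM, hπn⟩ := hCELL V G hG M
  obtain ⟨τ1, hτ1⟩ := hTOUR V G hG d hd0 hd L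
  choose φ hφ0 hφadj hφall using hτ1
  obtain ⟨τ2, hτ2⟩ := hKDEC V G hG hT (2 ^ r2) (Nat.one_le_pow _ _ (by norm_num))
  -- choice of `τ` and `m`
  set N : ℕ := 2 ^ r2 with hN
  set τ : ℕ := 2 * (τ1 + τ2 + 8 * N + 8) with hτ
  have hNpos : 1 ≤ N := Nat.one_le_pow _ _ (by norm_num)
  have hdτ : 16 * N + 16 ≤ d ^ τ := by
    calc 16 * N + 16 ≤ τ := by rw [hτ]; omega
      _ ≤ 2 ^ τ := Nat.lt_two_pow_self.le
      _ ≤ d ^ τ := Nat.pow_le_pow_left hd2 τ
  set m : ℕ := d ^ τ / 2 with hm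
  have hm1 : 8 * N + 8 ≤ m := by rw [hm]; omega
  have hm2 : 2 * m ≤ d ^ τ := by rw [hm]; omega
  have hm3 : d ^ τ ≤ 4 * m := by rw [hm]; omega
  have hmle : (m : ℝ) ≤ (d : ℝ) ^ τ / 2 := by
    have : ((2 * m : ℕ) : ℝ) ≤ ((d ^ τ : ℕ) : ℝ) := by exact_mod_cast hm2
    push_cast at this; linarith
  have hmge : (d : ℝ) ^ τ / 4 ≤ m := by
    have : ((d ^ τ : ℕ) : ℝ) ≤ ((4 * m : ℕ) : ℝ) := by exact_mod_cast hm3
    push_cast at this; linarith
  have hτe : Even τ := ⟨τ1 + τ2 + 8 * N + 8, by rw [hτ]; ring⟩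
  have hτ1' : 1 ≤ τ := by rw [hτ]; omega
  have hτ2' : 2 ≤ τ := by rw [hτ]; omega
  have hkap : ∀ x y, kap G m τ x y ≤ 1 / (2 * (N : ℝ)) := by
    intro x y
    exact hτ2 τ (by rw [hτ]; omega) hτe m (by omega) x y
  have hφπ : ∀ x y, π y = π x → ∃ i ≤ τ, φ x i = y := by
    intro x y hxy
    obtain ⟨i, hi, he⟩ := hφall x y (hπL x y hxy.symm)
    exact ⟨i, by rw [hτ]; omega, he⟩
  refine ⟨(2 * (m * τ : ℕ) : ℝ≥0), fun t ht => ?_⟩
  have htR : 2 * ((m * τ : ℕ) : ℝ) ≤ (t : ℝ) := by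
    have : ((2 * (m * τ : ℕ) : ℝ≥0) : ℝ) ≤ (t : ℝ) := by exact_mod_cast ht
    simpa using this
  have hmτ : 1 ≤ m * τ := Nat.one_le_iff_ne_zero.2 (Nat.mul_ne_zero (by omega) (by omega))
  have htpos : (0 : ℝ) < t := by
    have : (1 : ℝ) ≤ ((m * τ : ℕ) : ℝ) := by exact_mod_cast hmτ
    linarith
  -- the engine
  obtain ⟨hw0, hwsym, hwsum, hwout⟩ := hOUT V G d hd0 hd m τ (by omega) π hπf (lam : ℝ) hlamR.le
  have hcard : ∀ (D : Finset (Set.range π)) (A : Finset V), (∀ x, x ∈ A ↔ ∃ u ∈ D, π x = u) →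
      M * D.card ≤ A.card := by
    intro D A hDA
    have hfib : ∀ u ∈ D, M ≤ (A.filter (fun x => π x = (u : V))).card := by
      intro u hu
      obtain ⟨x, hx⟩ := u.2
      have h1 := hπM x
      have h2 : {y | π y = π x} = (A.filter (fun y => π y = (u : V)) : Set V) := by
        ext y
        simp only [Set.mem_ofPred_eq, Finset.coe_filter]
        constructor
        · intro hy
          exact ⟨(hDA y).2 ⟨u, hu, by rw [hy, hx]⟩, by rw [hy, hx]⟩
        · rintro ⟨_, hy⟩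
          rw [hy, hx]
      rw [h2, Set.ncard_coe_finset] at h1
      exact h1
    have h3 : A = D.biUnion (fun u => A.filter (fun x => π x = (u : V))) := by
      ext x
      simp only [Finset.mem_biUnion, Finset.mem_filter]
      constructor
      · intro hx
        obtain ⟨u, hu, he⟩ := (hDA x).1 hx
        exact ⟨u, hu, hx, he⟩
      · rintro ⟨u, _, hx, _⟩
        exact hx
    have h4 : A.card = ∑ u ∈ D, (A.filter (fun x => π x = (u : V))).card := by
      conv_lhs => rw [h3]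
      apply Finset.card_biUnion
      intro u _ v _ huv
      show Disjoint (A.filter (fun x => π x = (u : V))) (A.filter (fun x => π x = (v : V)))
      rw [Finset.disjoint_left]
      intro x hx hx'
      rw [Finset.mem_filter] at hx hx'
      exact huv (Subtype.ext (hx.2.symm.trans hx'.2))
    rw [h4, mul_comm]
    calc D.card * M = ∑ u ∈ D, M := by rw [Finset.sum_const, smul_eq_mul]
      _ ≤ _ := Finset.sum_le_sum hfib
  have hiso : ∀ (r : ℕ) (D : Finset (Set.range π)), D.Nonempty → 2 ^ r ≤ D.card →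
      ENNReal.ofReal (2 * ψ r) ≤ ∑ u ∈ D, ∑' v : Set.range π, (if v ∈ D then 0 else
        ENNReal.ofReal (cw G π m τ lam u v)) := by
    intro r D hD hr
    obtain ⟨A, hDA⟩ : ∃ A : Finset V, ∀ x, x ∈ A ↔ ∃ u ∈ D, π x = u := by
      have hfin : {x | ∃ u ∈ D, π x = (u : V)}.Finite := by
        have : {x | ∃ u ∈ D, π x = (u : V)} = ⋃ u ∈ D, {x | π x = (u : V)} := by
          ext x; simp only [Set.mem_ofPred_eq, Set.mem_iUnion, exists_prop]
        rw [this]
        refine Set.Finite.biUnion (Finset.finite_toSet D) fun u _ => ?_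
        obtain ⟨x, hx⟩ := u.2
        rw [← hx]
        exact hπf x
      exact ⟨hfin.toFinset, fun x => by rw [Set.Finite.mem_toFinset]; rfl⟩
    have hout := hwout D A hDA
    have hMD := hcard D A hDA
    have hAr : 2 ^ r ≤ A.card := by
      calc 2 ^ r ≤ D.card := hr
        _ ≤ M * D.card := Nat.le_mul_of_pos_left _ (by omega)
        _ ≤ A.card := hMD
    have hnb : ∀ x ∈ A, ∃ x' ∈ A, G.Adj x x' := by
      intro x hx
      obtain ⟨u, hu, he⟩ := (hDA x).1 hx
      obtain ⟨z, hz, hπz⟩ := hπn x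
      exact ⟨z, (hDA z).2 ⟨u, hu, by rw [hπz, he]⟩, hz⟩
    -- large sets
    have hbig : ∀ r' : ℕ, 2 ^ r' ≤ A.card →
        c * (11 / 10) ^ r' ≤ (lam : ℝ) / 16 * ((A.card : ℝ) - ∑ x ∈ A, ∑ y ∈ A, kap G m τ x y) := by
      intro r' hr'
      have h1 := hISO r' A hr'
      have h2 := hKAP V G d hd0 hd A hnb m τ (by omega) hτe hτ2'
      have h3 : c * (11 / 10) ^ r' = (lam : ℝ) / 16 * ((c0 * (11 / 10) ^ r') / (2 * (d : ℝ) ^ 2)) := by
        rw [hc]; field_simp; norm_num
      rw [h3]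
      refine mul_le_mul_of_nonneg_left (le_trans ?_ h2) (by positivity)
      exact div_le_div_of_nonneg_right h1 (by positivity)
    -- the bound
    have key : 2 * ψ r ≤ (lam : ℝ) / 16 * ((A.card : ℝ) - ∑ x ∈ A, ∑ y ∈ A, kap G m τ x y) := by
      rcases le_or_gt r r1 with hrr | hrr
      · rw [hψ1 r hrr]
        rcases le_or_gt A.card N with hAN | hAN
        · -- small sets
          have h1 : ∑ x ∈ A, ∑ y ∈ A, kap G m τ x y ≤ (A.card : ℝ) / 2 := by
            have h2 : ∀ x ∈ A, ∑ y ∈ A, kap G m τ x y ≤ 1 / 2 := by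
              intro x _
              calc ∑ y ∈ A, kap G m τ x y ≤ ∑ y ∈ A, 1 / (2 * (N : ℝ)) :=
                    Finset.sum_le_sum fun y _ => hkap x y
                _ = (A.card : ℝ) / (2 * (N : ℝ)) := by
                    rw [Finset.sum_const, nsmul_eq_mul]; ring
                _ ≤ 1 / 2 := by
                    have hNR : (1 : ℝ) ≤ N := by exact_mod_cast hNpos
                    have : (A.card : ℝ) ≤ N := by exact_mod_cast hAN
                    rw [div_le_div_iff₀ (by positivity) (by norm_num)]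
                    linarith
            calc ∑ x ∈ A, ∑ y ∈ A, kap G m τ x y ≤ ∑ x ∈ A, (1 / 2 : ℝ) := Finset.sum_le_sum h2
              _ = (A.card : ℝ) / 2 := by rw [Finset.sum_const, nsmul_eq_mul]; ring
          have h3 : (M : ℝ) * 2 ^ r ≤ A.card := by
            have : M * 2 ^ r ≤ A.card := (Nat.mul_le_mul_left M hr).trans hMD
            exact_mod_cast this
          have h4 : (lam : ℝ) * M / 32 * 2 ^ r ≤ (lam : ℝ) / 16 * ((A.card : ℝ) / 2) := by
            have : (lam : ℝ) * M / 32 * 2 ^ r = (lam : ℝ) / 16 * ((M : ℝ) * 2 ^ r / 2) := by ring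
            rw [this]
            refine mul_le_mul_of_nonneg_left ?_ (by positivity)
            linarith
          refine h4.trans (mul_le_mul_of_nonneg_left ?_ (by positivity))
          linarith
        · have h1 := hbig r2 hAN.le
          refine le_trans ?_ h1
          refine le_trans ?_ hψ3
          refine mul_le_mul_of_nonneg_left ?_ (by positivity)
          exact pow_le_pow_right₀ (by norm_num) hrr
      · rw [hψ2 r hrr]
        exact hbig r hAr
    refine (ENNReal.ofReal_le_ofReal key).trans (le_of_eq ?_)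
    rw [← hout]
  have heng := hENG (Set.range π) (fun u v => cw G π m τ lam u v) (fun u v => hw0 u v)
    (fun u v => hwsym u v) (fun u => by rw [hwsum u]; exact ENNReal.ofReal_ne_top) ψ hψ0 hψm hψs
    (fun r D hD hr => (hiso r D hD hr).trans (le_of_eq (Finset.sum_congr rfl fun u _ =>
      tsum_congr fun v => by by_cases hv : v ∈ D <;> simp [hv]))) (Conf V) (law G lam) (fun u => Nf π t u) (hIND V G π hπf t lam).1 (hIND V G π hπf t lam).2
    (fun u S _ => hCLOSE V G d hd0 hd τ m φ hφ0 hφadj hτ1' hmle hmge π hπf hφπ t htR lam u S)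
    ⟨π o, o, rfl⟩
  -- some vertex of the cell of `o` survives with positive probability
  have hx : ∃ x, law G lam (Survives (t : ℝ) x) ≠ 0 := by
    by_contra hcon
    push Not at hcon
    apply heng
    refine measure_mono_null (t := ⋃ x : V, Survives (t : ℝ) x) ?_ ?_
    · intro ω hω
      obtain ⟨x, _, hx⟩ := hREACH V π hπf t ω ⟨π o, o, rfl⟩ hω
      exact Set.mem_iUnion.2 ⟨x, hx⟩
    · exact measure_iUnion_null fun x => hcon x
  obtain ⟨x, hx⟩ := hx
  exact hINS V G hG lam hlam t htpos x o hx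


/-- **Critical curves.** -/
theorem curves (hISO2 : S_ISO2) (hTWO : S_TWO) (hHHL : S_HHL) (hHHG : S_HHG) (hHHM : S_HHM)
    (hONE : S_ONE) (hMT : S_MT) (hSUB : S_SUB) (hREAL : S_REAL)
    (V : Type) [Infinite V] [MeasurableSpace V] [DiscreteMeasurableSpace V]
    (G : SimpleGraph V) [G.LocallyFinite] (hG : G.Connected) (hT : Transitive G)
    (o : V) (hL : ¬ LinearGrowth G o) :
    (∀ lam : ℝ≥0, 0 < lam → 0 < tc G o lam ∧ tc G o lam < ⊤) ∧
    (∀ t : ℝ≥0, 0 < t → 0 < lc G o t ∧ lc G o t < ⊤) ∧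
    ContinuousOn (fun lam : ℝ≥0 => tc G o lam) (Set.Ioi 0) ∧
    StrictAntiOn (fun lam : ℝ≥0 => tc G o lam) (Set.Ioi 0) ∧
    ContinuousOn (fun t : ℝ≥0 => lc G o t) (Set.Ioi 0) ∧
    StrictAntiOn (fun t : ℝ≥0 => lc G o t) (Set.Ioi 0) := by
  classical
  have : Countable V := pCNT V G hG
  obtain ⟨d, hd2, hd⟩ := pREG V G hG hT
  have hd0 : 0 < d := by omega
  obtain ⟨c0, hc0, hiso⟩ := hISO2 V G hG hT o hL
  -- finiteness of the critical lifetime
  have hF1 : ∀ lam : ℝ≥0, 0 < lam → ∃ t : ℝ≥0, law G lam (Survives (t : ℝ) o) ≠ 0 := by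
    intro lam hlam
    obtain ⟨t0, ht0⟩ := exists_time2 pCNT pREG pCELL pTOUR pKAP pKDEC pCLOSE pIND pREACH pINS pOUT
      pENG pPAR V G hG hT o c0 hc0 hiso lam hlam
    exact ⟨t0, ht0 t0 le_rfl⟩
  have hF2 : ∀ t : ℝ≥0, 0 < t → ∃ lam : ℝ≥0, 0 < lam ∧ law G lam (Survives (t : ℝ) o) ≠ 0 := by
    intro t ht
    obtain ⟨s, hs⟩ := hF1 1 one_pos
    have hs0 : 0 < s := by
      rcases eq_or_lt_of_le (zero_le (a := s)) with h | h
      · exfalso
        apply hs
        have h1 := hSUB V G d hd0 hd 1 s (by rw [← h]; simp) o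
        exact h1
      · exact h
    obtain ⟨lam', hlam', hH⟩ := hHHG d hd0 1 (s : ℝ) (t : ℝ) one_pos (by exact_mod_cast hs0)
      (by exact_mod_cast ht)
    lift lam' to ℝ≥0 using hlam'.le
    refine ⟨lam', by exact_mod_cast hlam', fun h0 => hs ?_⟩
    have h1 := hTWO V G d hd0 hd 1 lam' s t one_pos hs0 (by rw [NNReal.coe_one]; exact hH) o
    rw [h0] at h1
    exact le_antisymm h1 zero_le
  have h7 : ∀ a b : ℝ≥0, 0 < a → a ≤ b → ∃ K ε0 : ℝ≥0, 0 < K ∧ 0 < ε0 ∧ ε0 < a ∧
      ∀ lam t ε : ℝ≥0, a ≤ lam → lam ≤ b → a ≤ t → t ≤ b → ε ≤ ε0 →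
      law G lam (Survives (t : ℝ) o) ≤
        law G (lam + K * ε) (Survives ((t - ε : ℝ≥0) : ℝ) o) := by
    intro a b ha hab
    obtain ⟨K, ε0, hK, hε0, hε0a, hH⟩ := hHHL d hd0 (a : ℝ) (b : ℝ) (by exact_mod_cast ha)
      (by exact_mod_cast hab)
    lift K to ℝ≥0 using hK.le
    lift ε0 to ℝ≥0 using hε0.le
    refine ⟨K, ε0, by exact_mod_cast hK, by exact_mod_cast hε0, by exact_mod_cast hε0a, ?_⟩
    intro lam t ε h1 h2 h3 h4 h5
    have hεt : ε ≤ t := by
      have h6 : ε0 < a := by exact_mod_cast hε0a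
      exact (h5.trans h6.le).trans h3
    refine hTWO V G d hd0 hd lam (lam + K * ε) t (t - ε) (ha.trans_le h1)
      (ha.trans_le h3) ?_ o
    have h8 := hH (lam : ℝ) (t : ℝ) (ε : ℝ) (by exact_mod_cast h1) (by exact_mod_cast h2)
      (by exact_mod_cast h3) (by exact_mod_cast h4) ε.2 (by exact_mod_cast h5)
    rw [NNReal.coe_sub hεt]
    push_cast
    exact h8
  exact hREAL (fun lam t => law G lam (Survives (t : ℝ) o))
    (fun lam t t' h => hMT V G lam t t' (by exact_mod_cast h) o)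
    (fun lam lam' t h0 h => by
      rcases eq_or_lt_of_le (zero_le (a := t)) with ht | ht
      · have h1 := hSUB V G d hd0 hd lam t (by rw [← ht]; simp) o
        show law G lam (Survives (t : ℝ) o) ≤ law G lam' (Survives (t : ℝ) o)
        rw [h1]; exact zero_le
      · exact hTWO V G d hd0 hd lam lam' t t h0 ht (hHHM d hd0 lam lam' t
          (by exact_mod_cast h0) (by exact_mod_cast ht) (by exact_mod_cast h)) o)
    hF1 hF2 (fun lam t h => hSUB V G d hd0 hd lam t h o)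
    (fun lam lam' t t' h1 h2 h3 => hONE V G d hd0 hd lam lam' t t' h1 h2 h3 o) h7

end Pool.Agent.H979.FC
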