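import Pool.Agent.H979.FC.Asm
import Pool.Agent.H703.FCVOID
import Pool.Agent.H415.FCUNI
import Pool.Agent.H860.FCCOND
import Pool.Agent.H25.FCBLOCK
import Pool.Agent.H747.FCBLOCKS
import Pool.Agent.H707.FCSRV
import Pool.Agent.H75.FCCMP
import Pool.Agent.H772.FCKLAW
import Pool.Agent.H407.FCRUNP
import Pool.Agent.H658.FCRFAE
import Pool.Agent.H670.FCREP
import Pool.Agent.H152.FCPCNT
import Pool.Agent.H695.FCTWO
import Pool.Agent.H922.FCHHL
import Pool.Agent.H400.FCHHG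
import Pool.Agent.H727.FC.FCTMM
import Pool.Agent.H196.FCONE
import Pool.Agent.H100.FCSUB
import Pool.Agent.H349.FCREAL
import Pool.Agent.H176.FCMT

set_option autoImplicit false

open MeasureTheory ProbabilityTheory
open scoped ENNReal NNReal

namespace Pool.Agent.H979.FC

open Pool.Agent.H979.FR

theorem pVOID : S_VOID := Pool.Agent.H703.fc_void
theorem pPFV : S_PFV := Pool.Agent.H703.fc_pfv
theorem pUNI : S_UNI := Pool.Agent.H415.fc_uni pVOID pPFV
theorem pCOND : S_COND := Pool.Agent.H860.fc_cond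
theorem pBLOCK : S_BLOCK := Pool.Agent.H25.fc_block pPFV pUNI pCOND
theorem pBLOCKS : S_BLOCKS := Pool.Agent.H747.fc_blocks pBLOCK
theorem pSRV : S_SRV := Pool.Agent.H707.fc_srv
theorem pKLAW : S_KLAW := Pool.Agent.H772.fc_klaw
theorem pCLKA : S_CLKA := Pool.Agent.H772.fc_clka
theorem pRUNP : S_RUNP := Pool.Agent.H407.fc_runp pKLAW
theorem pRFAE : S_RFAE := Pool.Agent.H658.fc_rfae pCLKA
theorem pREP : S_REP := Pool.Agent.H670.fc_rep pRFAE pRUNP pVOID pPFV pPOI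
theorem pCMP : S_CMP := Pool.Agent.H75.fc_cmp pVOID pPFV pUNI pBLOCKS pSRV
theorem pPCNT : S_PCNT := Pool.Agent.H152.fc_pcnt
theorem pTWO : S_TWO := Pool.Agent.H695.fc_two pCMP pREP pPCNT
theorem pHHL : S_HHL := Pool.Agent.H922.fc_hhl
theorem pHHG : S_HHG := Pool.Agent.H400.fc_hhg
theorem pHHM : S_HHM := Pool.Agent.H400.fc_hhm
theorem pTMM : S_TMM := Pool.Agent.H727.fc_tmm
theorem pONE : S_ONE := Pool.Agent.H196.fc_one pTMM pRFAE pRUNP pVOID pSRV pPOI
theorem pMT : S_MT := Pool.Agent.H176.fc_mt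
theorem pISO2 : S_ISO2 := Pool.Agent.H176.fc_iso2 pISO
theorem pSUB : S_SUB := Pool.Agent.H100.fc_sub pKLAW pCLKA pPOI pMEAS
theorem pREAL : S_REAL := Pool.Agent.H349.fc_real

/-- **Critical curves** of the frog model with death on transitive graphs of superlinear growth. -/
theorem critical_curves
    (V : Type) [Infinite V] [MeasurableSpace V] [DiscreteMeasurableSpace V]
    (G : SimpleGraph V) [G.LocallyFinite] (hG : G.Connected) (hT : Transitive G)
    (o : V) (hL : ¬ LinearGrowth G o) :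
    (∀ lam : ℝ≥0, 0 < lam → 0 < tc G o lam ∧ tc G o lam < ⊤) ∧
    (∀ t : ℝ≥0, 0 < t → 0 < lc G o t ∧ lc G o t < ⊤) ∧
    ContinuousOn (fun lam : ℝ≥0 => tc G o lam) (Set.Ioi 0) ∧
    StrictAntiOn (fun lam : ℝ≥0 => tc G o lam) (Set.Ioi 0) ∧
    ContinuousOn (fun t : ℝ≥0 => lc G o t) (Set.Ioi 0) ∧
    StrictAntiOn (fun t : ℝ≥0 => lc G o t) (Set.Ioi 0) :=
  curves pISO2 pTWO pHHL pHHG pHHM pONE pMT pSUB pREAL V G hG hT o hL

end Pool.Agent.H979.FC
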